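import Mathlib

set_option autoImplicit false

namespace Pool.Agent.Results.MP_70678e_nt.DigitSum86

theorem result :
    IsLeast {p : ℕ | p.Prime ∧ (Nat.digits 10 p).sum = 86} 6999999989 ∧
    ¬ (∀ k r : ℕ, 38 < k → IsLeast {p : ℕ | p.Prime ∧ (Nat.digits 10 p).sum = k} r →
        r % 100 = 99) ∧
    ¬ (∀ k r : ℕ, 59 < k → IsLeast {p : ℕ | p.Prime ∧ (Nat.digits 10 p).sum = k} r →
        r % 1000 = 999) := by
  have step : ∀ n : ℕ, (Nat.digits 10 n).sum = n % 10 + (Nat.digits 10 (n / 10)).sum := by
    intro n
    rcases Nat.eq_zero_or_pos n with rfl | hn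
    · simp
    · rw [Nat.digits_def' (by norm_num) hn]; simp
  have hp : Nat.Prime 6999999989 := by
    rw [Nat.prime_def_le_sqrt]
    refine ⟨by norm_num, fun m hm hm2 hd => ?_⟩
    have hs : Nat.sqrt 6999999989 < 83700 := by
      rw [Nat.sqrt_lt']; norm_num
    have key : (List.range 83700).all (fun d => decide (d < 2) || 6999999989 % d != 0) = true := by
      decide +kernel
    rw [List.all_eq_true] at key
    have := key m (List.mem_range.mpr (by omega))
    have h0 : 6999999989 % m = 0 := Nat.mod_eq_zero_of_dvd hd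
    simp [h0] at this
    omega
  have main : IsLeast {p : ℕ | p.Prime ∧ (Nat.digits 10 p).sum = 86} 6999999989 := by
    refine ⟨⟨hp, by decide +kernel⟩, ?_⟩
    rintro n ⟨hn, hs⟩
    by_contra hlt
    push Not at hlt
    have hz : n / 10 / 10 / 10 / 10 / 10 / 10 / 10 / 10 / 10 / 10 = 0 := by omega
    rw [step, step (n/10), step (n/10/10), step (n/10/10/10), step (n/10/10/10/10),
      step (n/10/10/10/10/10), step (n/10/10/10/10/10/10), step (n/10/10/10/10/10/10/10),
      step (n/10/10/10/10/10/10/10/10), step (n/10/10/10/10/10/10/10/10/10), hz] at hs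
    simp only [Nat.digits_zero, List.sum_nil] at hs
    have hc : n = 5999999999 ∨ n = 6899999999 ∨ n = 6989999999 ∨ n = 6998999999 ∨
        n = 6999899999 ∨ n = 6999989999 ∨ n = 6999998999 ∨ n = 6999999899 := by
      omega
    rcases hc with h | h | h | h | h | h | h | h <;> subst h <;> revert hn <;> norm_num
  refine ⟨main, fun H => ?_, fun H => ?_⟩
  · have := H 86 _ (by norm_num) main
    norm_num at this
  · have := H 86 _ (by norm_num) main
    norm_num at this

end Pool.Agent.Results.MP_70678e_nt.DigitSum86
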